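import Mathlib
import Pool.Agent.X207.CC8

/-!
A convex-cyclic bounded operator `T` on the complex Hilbert space `ℓ²(ℕ)` such that `-T` is not
convex-cyclic: `T = -(100 + i (1 - S))`, `S` the unilateral forward shift.
-/

namespace Pool.Agent.Results.MP_cfec29_an.NegNotConvexCyclic
open Pool.Agent.X207.CC

/-- the convex hull of the orbit: all finite convex combinations of `x, T x, T² x, …` -/
def coOrb {H : Type*} [NormedAddCommGroup H] [InnerProductSpace ℂ H] (T : H →L[ℂ] H) (x : H) :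
    Set H :=
  {y | ∃ (n : ℕ) (a : ℕ → ℝ), (∀ k, 0 ≤ a k) ∧ ∑ k ∈ Finset.range (n + 1), a k = 1 ∧
    y = ∑ k ∈ Finset.range (n + 1), (a k : ℂ) • (T ^ k) x}

/-- `T` is convex-cyclic: for some `x` the convex hull of the orbit of `x` is dense -/
def ConvexCyclic {H : Type*} [NormedAddCommGroup H] [InnerProductSpace ℂ H] (T : H →L[ℂ] H) :
    Prop := ∃ x : H, Dense (coOrb T x)

lemma real_smul_eq (r : ℝ) (y : lp (fun _ : ℕ => ℂ) 2) : r • y = (r : ℂ) • y := by
  ext n
  rw [lp.coeFn_smul, lp.coeFn_smul]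
  simp

lemma hull_le (T : E2 →L[ℂ] E2) (x : E2) : convexHull ℝ (orb T x) ⊆ coOrb T x := by
  intro y hy
  obtain ⟨p, hp, hp1, rfl⟩ := hull_sub T x hy
  refine ⟨p.natDegree, fun k => p.coeff k, hp, ?_, ?_⟩
  · rw [Polynomial.eval_eq_sum_range] at hp1
    simpa using hp1
  · rw [Polynomial.aeval_eq_sum_range]
    have : ∀ k, (p.coeff k • T ^ k) x = (p.coeff k : ℂ) • (T ^ k) x := by
      intro k
      rw [← real_smul_eq]
      rfl
    simp only [← this]
    rw [sum_apply]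

lemma le_hull (T : E2 →L[ℂ] E2) (x : E2) : coOrb T x ⊆ convexHull ℝ (orb T x) := by
  rintro y ⟨n, a, ha, hs, rfl⟩
  have : ∑ k ∈ Finset.range (n + 1), (a k : ℂ) • (T ^ k) x =
      ∑ k ∈ Finset.range (n + 1), a k • (T ^ k) x := by
    apply Finset.sum_congr rfl
    intro k _
    rw [real_smul_eq]
  rw [this]
  apply (convex_convexHull ℝ _).sum_mem (fun k _ => ha k) hs
  intro k _
  exact subset_convexHull ℝ _ ⟨k, rfl⟩

/-- Mathlib's complex Hilbert space `ℓ²(ℕ)` -/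
noncomputable abbrev L2 : Type := lp (fun _ : ℕ => ℂ) 2

/-- `T` is the operator `a + b S` (`S` the forward shift): `(T x)_0 = a x_0` and
`(T x)_{n+1} = a x_{n+1} + b x_n` -/
def ActsAs (T : L2 →L[ℂ] L2) (a b : ℂ) : Prop :=
  ∀ x : L2, (T x) 0 = a * x 0 ∧ ∀ n, (T x) (n + 1) = a * x (n + 1) + b * x n

theorem result :
    ∃ T : L2 →L[ℂ] L2, ActsAs T (-(100 + Complex.I)) Complex.I ∧
      ConvexCyclic T ∧ ¬ ConvexCyclic (-T) := by
  refine ⟨-Aop, fun x => ⟨?_, fun n => ?_⟩, ⟨e0, negA_dense.mono (hull_le _ _)⟩, ?_⟩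
  · have : (-Aop) x = -((100 : ℂ) • x + Complex.I • (x - U x)) := by
      simp only [Aop, Yop, neg_apply, add_apply, smul_apply, one_apply_eq_self, sub_apply, S_apply]
    rw [this, lp.coeFn_neg, Pi.neg_apply, lp.coeFn_add, lp.coeFn_smul, lp.coeFn_smul, lp.coeFn_sub,
      Pi.add_apply, Pi.smul_apply, Pi.smul_apply, Pi.sub_apply, U_zero, smul_eq_mul, smul_eq_mul]
    ring
  · have : (-Aop) x = -((100 : ℂ) • x + Complex.I • (x - U x)) := by
      simp only [Aop, Yop, neg_apply, add_apply, smul_apply, one_apply_eq_self, sub_apply, S_apply]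
    rw [this, lp.coeFn_neg, Pi.neg_apply, lp.coeFn_add, lp.coeFn_smul, lp.coeFn_smul, lp.coeFn_sub,
      Pi.add_apply, Pi.smul_apply, Pi.smul_apply, Pi.sub_apply, U_succ, smul_eq_mul, smul_eq_mul]
    ring
  · rw [neg_neg]
    rintro ⟨x, hx⟩
    exact A_not x (hx.mono (le_hull _ _))

end Pool.Agent.Results.MP_cfec29_an.NegNotConvexCyclic
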